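import Pool.Agent.Q23.AP.Complex

/-!
# Four exponentials for rational numbers: additive pairs `x`, `1 - x`

A counterexample to Q1 of `MP_bbc1fa_nt` with the first row `(log x, log (1 - x))` is the same as an
irrational number `t` such that `x ^ t` and `(1 - x) ^ t` are rational.  We show that for a given
irrational `t` this happens for at most one rational `x` in `(0, 1/2)`, or exactly for
`x = 1/3, 1/4, 1/9` (these three occur together, exactly if `2 ^ t` and `3 ^ t` are rational).

The same holds with algebraic in place of rational values, with complex `t`, and with linear forms in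
logarithms: for a transcendental number `t` and any rational vector space `V` of linear forms, with
algebraic coefficients, in `1` and logarithms of algebraic numbers, at most one rational `x` in
`(0, 1/2)` satisfies `t log x ∈ V` and `t log (1 - x) ∈ V`, or these `x` are `1/3`, `1/4`, `1/9`.
-/

set_option autoImplicit false

namespace Pool.Agent.Results.MP_bbc1fa_nt.AdditivePairs

/-- The rational numbers `x` in the interval `(0, 1/2)` for which `t log x` and `t log (1 - x)` lie
in `V`. -/
def Pairs (V : Set ℂ) (t : ℂ) : Set ℚ :=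
  {x : ℚ | 0 < x ∧ x < 1 / 2 ∧ t * ((Real.log (x : ℝ) : ℝ) : ℂ) ∈ V ∧
    t * ((Real.log ((1 - x : ℚ) : ℝ) : ℝ) : ℂ) ∈ V}

/-- All logarithms of algebraic numbers. -/
def Logs : Set ℂ := {z : ℂ | IsAlgebraic ℚ (Complex.exp z)}

/-- All linear combinations, with algebraic coefficients, of `1` and of logarithms of algebraic
numbers. -/
noncomputable def LogForms : Submodule (algebraicClosure ℚ ℂ) ℂ :=
  Submodule.span (algebraicClosure ℚ ℂ) ({1} ∪ Logs)

/-- A matrix which violates Q1: the entries are logarithms of positive rational numbers, the rows and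
the columns are linearly independent over `ℚ`, and the determinant is zero. -/
def Violates (M : Matrix (Fin 2) (Fin 2) ℝ) : Prop :=
  (∀ i j, ∃ a : ℚ, 0 < a ∧ M i j = Real.log a) ∧
    (∀ r s : ℚ, (∀ j, (r : ℝ) * M 0 j + s * M 1 j = 0) → r = 0 ∧ s = 0) ∧
    (∀ r s : ℚ, (∀ i, (r : ℝ) * M i 0 + s * M i 1 = 0) → r = 0 ∧ s = 0) ∧
    M.det = 0

/-- At most one element, or exactly `1/3`, `1/4`, `1/9`. -/
def Few (A : Set ℚ) : Prop := A.Subsingleton ∨ A = {1 / 3, 1 / 4, 1 / 9}

/-- **Main result.** -/
theorem result :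
    -- linear forms in logarithms
    (∀ t : ℂ, Transcendental ℚ t → ∀ V : Submodule ℚ ℂ, (∀ z ∈ V, z ∈ LogForms) →
      Few (Pairs V t)) ∧
    -- powers of rational numbers
    (∀ t : ℂ, (∀ q : ℚ, t ≠ q) → Few (Pairs Logs t)) ∧
    -- violations of Q1 with the same quotient of the rows
    (∀ (x y : ℚ) (M N : Matrix (Fin 2) (Fin 2) ℝ), 0 < x → x < 1 / 2 → 0 < y → y < 1 / 2 →
      Violates M → Violates N → M 0 0 = Real.log x → M 0 1 = Real.log (1 - x) →
      N 0 0 = Real.log y → N 0 1 = Real.log (1 - y) → M 1 0 / M 0 0 = N 1 0 / N 0 0 →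
      x = y ∨ (x ∈ ({1 / 3, 1 / 4, 1 / 9} : Set ℚ) ∧ y ∈ ({1 / 3, 1 / 4, 1 / 9} : Set ℚ))) ∧
    -- consecutive integers
    (∀ t : ℝ, Irrational t →
      {n : ℕ | 2 ≤ n ∧ IsAlgebraic ℚ ((n : ℝ) ^ t) ∧ IsAlgebraic ℚ ((n + 1 : ℝ) ^ t)}.Subsingleton ∨
      {n : ℕ | 2 ≤ n ∧ IsAlgebraic ℚ ((n : ℝ) ^ t) ∧ IsAlgebraic ℚ ((n + 1 : ℝ) ^ t)} =
        {2, 3, 8}) := by
  have h2 : ∀ t : ℂ, (∀ q : ℚ, t ≠ q) → Few (Pairs Logs t) := fun t ht =>
    Pool.Agent.Q23.AP.powers ht
  refine ⟨fun t ht V hV => Pool.Agent.Q23.AP.dichotomy ht V hV, h2, ?_, ?_⟩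
  · intro x y M N hx hx1 hy hy1 hM hN hM0 hM1 hN0 hN1 hq
    -- the common quotient
    have key : ∀ (z : ℚ) (M : Matrix (Fin 2) (Fin 2) ℝ), 0 < z → z < 1 / 2 → Violates M →
        M 0 0 = Real.log z → M 0 1 = Real.log (1 - z) →
        (∀ q : ℚ, ((M 1 0 / M 0 0 : ℝ) : ℂ) ≠ q) ∧
          z ∈ Pairs Logs ((M 1 0 / M 0 0 : ℝ) : ℂ) := by
      intro z M hz hz1 hM h0 h1
      obtain ⟨hrat, hrow, -, hdet⟩ := hM
      have hz' : (0 : ℝ) < z := by exact_mod_cast hz
      have hz1' : (z : ℝ) < 1 / 2 := by
        have : ((z : ℚ) : ℝ) < ((1 / 2 : ℚ) : ℝ) := by exact_mod_cast hz1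
        norm_num at this
        linarith
      have hl0 : M 0 0 ≠ 0 := by
        rw [h0]
        exact (Real.log_neg hz' (by linarith)).ne
      have hl1 : M 1 1 = M 1 0 / M 0 0 * M 0 1 := by
        rw [Matrix.det_fin_two] at hdet
        field_simp
        linarith
      have hl2 : M 1 0 = M 1 0 / M 0 0 * M 0 0 := by
        field_simp
      refine ⟨?_, hz, hz1, ?_, ?_⟩
      · intro q hq
        have hq' : M 1 0 / M 0 0 = (q : ℝ) := by exact_mod_cast hq
        have := (hrow q (-1) (by
          intro j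
          fin_cases j
          · show (q : ℝ) * M 0 0 + ((-1 : ℚ) : ℝ) * M 1 0 = 0
            rw [hl2, hq']
            push_cast
            ring
          · show (q : ℝ) * M 0 1 + ((-1 : ℚ) : ℝ) * M 1 1 = 0
            rw [hl1, hq']
            push_cast
            ring)).2
        norm_num at this
      · show IsAlgebraic ℚ (Complex.exp _)
        obtain ⟨a, ha, hae⟩ := hrat 1 0
        have e : ((M 1 0 / M 0 0 : ℝ) : ℂ) * ((Real.log (z : ℝ) : ℝ) : ℂ) =
            ((Real.log (a : ℝ) : ℝ) : ℂ) := by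
          rw [← hae, hl2, ← h0]
          push_cast
          field_simp
        rw [e, ← Complex.ofReal_exp, Real.exp_log (by exact_mod_cast ha)]
        push_cast
        exact isAlgebraic_algebraMap a
      · show IsAlgebraic ℚ (Complex.exp _)
        obtain ⟨a, ha, hae⟩ := hrat 1 1
        have e : ((M 1 0 / M 0 0 : ℝ) : ℂ) * ((Real.log ((1 - z : ℚ) : ℝ) : ℝ) : ℂ) =
            ((Real.log (a : ℝ) : ℝ) : ℂ) := by
          rw [← hae, hl1, h1]
          push_cast
          rfl
        rw [e, ← Complex.ofReal_exp, Real.exp_log (by exact_mod_cast ha)]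
        push_cast
        exact isAlgebraic_algebraMap a
    obtain ⟨hirr, hxA⟩ := key x M hx hx1 hM hM0 hM1
    obtain ⟨-, hyA⟩ := key y N hy hy1 hN hN0 hN1
    rw [← hq] at hyA
    rcases h2 _ hirr with h | h
    · exact Or.inl (h hxA hyA)
    · right
      rw [h] at hxA hyA
      exact ⟨hxA, hyA⟩
  · intro t ht
    have hirr : ∀ q : ℚ, (t : ℂ) ≠ q := by
      intro q hq
      apply ht
      exact ⟨q, by exact_mod_cast hq.symm⟩
    -- translation to the pairs
    have key : ∀ n : ℕ, 2 ≤ n → ((IsAlgebraic ℚ ((n : ℝ) ^ t) ∧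
        IsAlgebraic ℚ ((n + 1 : ℝ) ^ t)) ↔ (1 / (n + 1) : ℚ) ∈ Pairs Logs t) := by
      intro n hn
      have hn0 : (0 : ℝ) < n := by
        have : 0 < n := by omega
        exact_mod_cast this
      have hnR : (2 : ℝ) ≤ n := by exact_mod_cast hn
      have hnQ : (2 : ℚ) ≤ n := by exact_mod_cast hn
      have e1 : Complex.exp ((t : ℂ) * ((Real.log (((1 / (n + 1) : ℚ)) : ℝ) : ℝ) : ℂ)) =
          ((((n + 1 : ℝ) ^ t)⁻¹ : ℝ) : ℂ) := by
        rw [← Complex.ofReal_mul, ← Complex.ofReal_exp]
        congr 1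
        rw [Real.rpow_def_of_pos (by positivity), ← Real.exp_neg]
        congr 1
        push_cast
        rw [one_div, Real.log_inv]
        ring
      have e2 : Complex.exp ((t : ℂ) * ((Real.log (((1 - 1 / (n + 1) : ℚ)) : ℝ) : ℝ) : ℂ)) =
          ((((n : ℝ) ^ t) * ((n + 1 : ℝ) ^ t)⁻¹ : ℝ) : ℂ) := by
        rw [← Complex.ofReal_mul, ← Complex.ofReal_exp]
        congr 1
        rw [Real.rpow_def_of_pos hn0, Real.rpow_def_of_pos (by positivity), ← Real.exp_neg,
          ← Real.exp_add]
        congr 1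
        have : (((1 - 1 / (n + 1) : ℚ)) : ℝ) = (n : ℝ) / (n + 1) := by
          push_cast
          field_simp
          ring
        rw [this, Real.log_div hn0.ne' (by positivity)]
        ring
      have hR : ∀ r : ℝ, IsAlgebraic ℚ (r : ℂ) ↔ IsAlgebraic ℚ r := by
        intro r
        exact isAlgebraic_algebraMap_iff (R := ℚ) (A := ℂ) (a := r) (algebraMap ℝ ℂ).injective
      have hpos : ((n + 1 : ℝ) ^ t) ≠ 0 := (Real.rpow_pos_of_pos (by positivity) t).ne'
      constructor
      · rintro ⟨ha, hb⟩
        refine ⟨by positivity, ?_, ?_, ?_⟩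
        · rw [div_lt_div_iff₀ (by positivity) (by norm_num)]
          linarith
        · show IsAlgebraic ℚ (Complex.exp _)
          rw [e1, hR]
          exact hb.inv
        · show IsAlgebraic ℚ (Complex.exp _)
          rw [e2, hR]
          exact ha.mul hb.inv
      · rintro ⟨-, -, ha, hb⟩
        have ha' : IsAlgebraic ℚ (((n + 1 : ℝ) ^ t)⁻¹) := by
          rw [← hR, ← e1]
          exact ha
        have hb' : IsAlgebraic ℚ (((n : ℝ) ^ t) * ((n + 1 : ℝ) ^ t)⁻¹) := by
          rw [← hR, ← e2]
          exact hb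
        have h3 : IsAlgebraic ℚ ((n + 1 : ℝ) ^ t) := by
          have := ha'.inv
          rwa [inv_inv] at this
        refine ⟨?_, h3⟩
        have := hb'.mul h3
        rwa [mul_assoc, inv_mul_cancel₀ hpos, mul_one] at this
    rcases h2 _ hirr with h | h
    · left
      rintro n ⟨hn, hn'⟩ m ⟨hm, hm'⟩
      have h3 := h ((key n hn).1 hn') ((key m hm).1 hm')
      have h4 : (n : ℚ) + 1 = m + 1 := by
        have h5 : (0 : ℚ) < n + 1 := by positivity
        have h6 : (0 : ℚ) < m + 1 := by positivity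
        field_simp at h3
        linarith
      have h5 : (n : ℚ) = m := by linarith
      exact_mod_cast h5
    · right
      ext n
      constructor
      · rintro ⟨hn, hn'⟩
        have h3 := (key n hn).1 hn'
        rw [h] at h3
        have h5 : (0 : ℚ) < n + 1 := by positivity
        rcases h3 with h3 | h3 | h3
        · left
          field_simp at h3
          have : (n : ℚ) = 2 := by linarith
          exact_mod_cast this
        · right; left
          field_simp at h3
          have : (n : ℚ) = 3 := by linarith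
          exact_mod_cast this
        · right; right
          have h3' : (1 : ℚ) / (n + 1) = 1 / 9 := h3
          field_simp at h3'
          have : (n : ℚ) = 8 := by linarith
          exact_mod_cast this
      · rintro (rfl | rfl | rfl)
        · refine ⟨le_refl _, (key 2 (le_refl _)).2 ?_⟩
          rw [h]
          norm_num
        · refine ⟨by norm_num, (key 3 (by norm_num)).2 ?_⟩
          rw [h]
          norm_num
        · refine ⟨by norm_num, (key 8 (by norm_num)).2 ?_⟩
          rw [h]
          norm_num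

end Pool.Agent.Results.MP_bbc1fa_nt.AdditivePairs
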