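import Mathlib
import Pool.Agent.Q47.AB.Det

/-!
# Four exponentials for `u` and almost all tuples of integers: the determinants times products from two dense sets

Let `u` be a positive real number, for instance a rational number, with `N ^ (-H) ≤ |log u| ≤ N ^ H`; it may depend on `N`. For
all but `C N ^ (m - 1 + ε)` of the `m`-tuples of positive integers `x_j ≤ N`, for instance of primes, and all `M` between
`N ^ B` and `N ^ E` the following holds for ALL matrices `(log α_ij)`, `α_ij = u ^ c_0 * ∏ x_j ^ c_j` with integers `c` of absolute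
value at most `M ^ κ`, with `ℚ`-linearly independent rows and columns: the determinant `Δ` is not zero, and it is an integral
multiple of `(log u) ^ 2` or for arbitrary dense sets `A`, `B` of integers the numbers `b Δ a ^ k c + R_c(a) + y_a`, `(a, c) ∈ A × B`, are
uniformly distributed modulo one with a power saving. The constants do not depend on `u`.

The proof uses the counting theorem over arbitrary constants of the starting files (`Y890.UC`), the determinants of linear forms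
(`TH659.AQ`), a bilinear estimate and an inverse theorem for the sums of Weyl (`Q47/DG/EqdK`, `H373R2/NB`).
-/

set_option autoImplicit false

namespace Pool.Agent.Results.MP_bbc1fa_nt.PairsFromDenseSets

open Finset Polynomial

/-- Polynomials over two dense sets are uniformly distributed at the scale `M`, with a power saving: for all integers
`b ≠ 0` with `|b| ≤ M ^ κ`, all degrees `1 ≤ k ≤ K`, all integers `H ≥ M ^ η`, ALL sets `A` of integers in `[0, M)` and `B` of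
integers in `[0, H)` with `|A| |B| ≥ M ^ (1 - κ) H`, all real numbers `y_a`, all real polynomials `R_c` of degree less than
`k` and all `0 ≤ u ≤ v ≤ 1`, the number of the pairs `(a, c) ∈ A × B` with the fractional part of
`b x a ^ k c + R_c(a) + y_a` in `[u, v)` is `(v - u) |A| |B|`, up to `|A| |B| M ^ (-κ)`. -/
def PGood (K : ℕ) (η κ : ℝ) (M : ℕ) (x : ℝ) : Prop :=
  ∀ b : ℤ, b ≠ 0 → |(b : ℝ)| ≤ (M : ℝ) ^ κ → ∀ k : ℕ, 1 ≤ k → k ≤ K → ∀ H : ℕ, (M : ℝ) ^ η ≤ H →
    ∀ A B : Finset ℕ, (∀ a ∈ A, a < M) → (∀ c ∈ B, c < H) → (M : ℝ) ^ (1 - κ) * H ≤ #A * #B →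
    ∀ (y : ℕ → ℝ) (R : ℕ → ℝ[X]), (∀ c, (R c).degree < k) → ∀ u v : ℝ, 0 ≤ u → u ≤ v → v ≤ 1 →
      |(#{i ∈ A ×ˢ B | u ≤ Int.fract (b * x * i.1 ^ k * i.2 + (R i.2).eval (i.1 : ℝ) + y i.1) ∧
          Int.fract (b * x * i.1 ^ k * i.2 + (R i.2).eval (i.1 : ℝ) + y i.1) < v} : ℝ) -
        (v - u) * (#A * #B)| ≤ #A * #B * (M : ℝ) ^ (-κ)

theorem pgood_iff (K : ℕ) (η κ : ℝ) (M : ℕ) (x : ℝ) : PGood K η κ M x ↔ Pool.Agent.Q47.DG.PGood K η κ M x := Iff.rfl

/-- The numbers `u ^ c_0 * ∏ x_j ^ c_j` with integers `c` of absolute value at most `H`. -/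
def Products {m : ℕ} (u : ℝ) (x : Fin m → ℕ) (H : ℝ) : Set ℝ :=
  {a | ∃ (c0 : ℤ) (c : Fin m → ℤ), |(c0 : ℝ)| ≤ H ∧ (∀ j, |(c j : ℝ)| ≤ H) ∧ a = u ^ c0 * ∏ j, (x j : ℝ) ^ c j}

/-- The matrix `(log α_ij)`. -/
noncomputable def logMatrix (α : Matrix (Fin 2) (Fin 2) ℝ) : Matrix (Fin 2) (Fin 2) ℝ :=
  Matrix.of fun i j => Real.log (α i j)

/-- The assertion for the tuple `x` and the scale `M`: for all matrices `(log α_ij)` with `ℚ`-linearly independent rows and
`ℚ`-linearly independent columns, `α_ij` in `Products u x (M ^ κ)`, the determinant is not zero, and it is an integral multiple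
of `(log u) ^ 2` or has the property `PGood` at the scale `M`. -/
def Holds {m : ℕ} (u κ η : ℝ) (K M : ℕ) (x : Fin m → ℕ) : Prop :=
  ∀ α : Matrix (Fin 2) (Fin 2) ℝ, (∀ i j, α i j ∈ Products u x ((M : ℝ) ^ κ)) →
    LinearIndependent ℚ (fun i : Fin 2 => fun j : Fin 2 => logMatrix α i j) →
    LinearIndependent ℚ (fun j : Fin 2 => fun i : Fin 2 => logMatrix α i j) →
    (logMatrix α).det ≠ 0 ∧ ((∃ n : ℤ, (logMatrix α).det = n * Real.log u ^ 2) ∨ PGood K η κ M (logMatrix α).det)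

/-- The `m`-tuples of integers `1 ≤ x_j ≤ N` for which the assertion fails for some `M` between `N ^ B` and `N ^ E`. -/
def Exceptional (m : ℕ) (u κ η : ℝ) (K : ℕ) (B E : ℝ) (N : ℕ) : Set (Fin m → ℕ) :=
  {x | (∀ j, 1 ≤ x j ∧ x j ≤ N) ∧ ∃ M : ℕ, (N : ℝ) ^ B ≤ (M : ℝ) ∧ (M : ℝ) ≤ (N : ℝ) ^ E ∧ ¬ Holds u κ η K M x}

/-- a singular matrix with a rational zero has dependent rows or columns -/
theorem four (M : Matrix (Fin 2) (Fin 2) ℝ) (h0 : M.det = 0) (w v : Fin 2 → ℚ) (hw : w ≠ 0) (hv : v ≠ 0)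
    (hwv : ∑ i, ∑ j, (w i : ℝ) * M i j * (v j : ℝ) = 0)
    (hrow : LinearIndependent ℚ (fun i : Fin 2 => fun j : Fin 2 => M i j))
    (hcol : LinearIndependent ℚ (fun j : Fin 2 => fun i : Fin 2 => M i j)) : False := by
  rw [Fintype.linearIndependent_iff] at hrow hcol
  rw [Matrix.det_fin_two] at h0
  simp only [Fin.sum_univ_two] at hwv
  -- a nonzero entry of `M v`
  obtain ⟨i, hi⟩ : ∃ i, M i 0 * v 0 + M i 1 * v 1 ≠ 0 := by
    by_contra hcon
    push Not at hcon
    apply hv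
    funext j
    refine hcol v ?_ j
    funext i
    simp only [Fin.sum_univ_two, Pi.add_apply, Pi.smul_apply, Rat.smul_def, Pi.zero_apply]
    linarith [hcon i]
  obtain ⟨j, hj⟩ : ∃ j, (w 0 : ℝ) * M 0 j + w 1 * M 1 j ≠ 0 := by
    by_contra hcon
    push Not at hcon
    apply hw
    funext i
    refine hrow w ?_ i
    funext j
    simp only [Fin.sum_univ_two, Pi.add_apply, Pi.smul_apply, Rat.smul_def, Pi.zero_apply]
    exact hcon j
  apply mul_ne_zero hi hj
  fin_cases i <;> fin_cases j <;> simp only [Fin.zero_eta, Fin.mk_one, Fin.isValue]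
  · linear_combination (M 0 0) * hwv - ((w 1 : ℝ) * v 1) * h0
  · linear_combination (M 0 1) * hwv + ((w 1 : ℝ) * v 0) * h0
  · linear_combination (M 1 0) * hwv + ((w 0 : ℝ) * v 1) * h0
  · linear_combination (M 1 1) * hwv - ((w 0 : ℝ) * v 0) * h0

theorem result (m : ℕ) (hm : 1 ≤ m) (H ε : ℝ) (hH : 0 ≤ H) (hε : 0 < ε) :
    ∃ B : ℝ, 1 ≤ B ∧ ∀ (K : ℕ) (η : ℝ), 0 < η → ∀ E : ℝ, ∃ κ : ℝ, 0 < κ ∧ ∃ C : ℝ, ∀ N : ℕ, 1 ≤ N →
      ∀ u : ℝ, 0 < u → (N : ℝ) ^ (-H) ≤ |Real.log u| → |Real.log u| ≤ (N : ℝ) ^ H →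
        (Exceptional m u κ η K B E N).Finite ∧
        ((Exceptional m u κ η K B E N).ncard : ℝ) ≤ C * (N : ℝ) ^ ((m : ℝ) - 1 + ε) := by
  classical
  obtain ⟨B, hB, h⟩ := Pool.Agent.Q47.AB.det_ov m 2 hm (by norm_num) H ε hH hε
  refine ⟨B, hB, fun K η hη E => ?_⟩
  obtain ⟨κ, C, hκ, h2⟩ := h (PGood K η) (Pool.Agent.Q47.DG.Abs.engine_prod K η hη) E
  refine ⟨κ, hκ, C, fun N hN u hu hu1 hu2 => ?_⟩
  obtain ⟨S, hSf, hSc, hS⟩ := h2 N hN (Real.log u) hu1 hu2
  have hsub : Exceptional m u κ η K B E N ⊆ S := by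
    rintro x ⟨hx, M, hM1, hM2, hnot⟩
    by_contra hxS
    apply hnot
    intro α hα hrow hcol
    choose c0 c hc0 hc hαe using hα
    have hx0 : ∀ j, (0 : ℝ) < x j := fun j => by exact_mod_cast (hx j).1
    obtain ⟨cc, hcc⟩ : ∃ cc : Fin 2 → Fin 2 → (Fin m ⊕ Fin 1) → ℤ, cc = fun i j z => Sum.elim (c i j) (fun _ => c0 i j) z :=
      ⟨_, rfl⟩
    have hlog : logMatrix α = Matrix.of fun i j => ∑ z, (cc i j z : ℝ) *
        Sum.elim (fun j => Real.log (x j)) (fun _ => Real.log u) z := by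
      ext i j
      simp only [logMatrix, Matrix.of_apply]
      rw [hαe i j, Real.log_mul (zpow_ne_zero _ hu.ne') (Finset.prod_ne_zero_iff.2 fun j _ => zpow_ne_zero _ (hx0 j).ne'),
        Real.log_prod (fun j _ => zpow_ne_zero _ (hx0 j).ne'), Real.log_zpow, Fintype.sum_sum_type]
      simp only [Real.log_zpow, hcc, Sum.elim_inl, Sum.elim_inr, Fin.sum_univ_one]
      ring
    obtain ⟨g1, g2⟩ := hS x hx hxS M hM1 hM2 cc (by
      intro i j z
      rw [hcc]
      rcases z with z | z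
      · exact hc i j z
      · exact hc0 i j) (logMatrix α).det (by rw [hlog])
    refine ⟨fun h0 => ?_, g1⟩
    obtain ⟨w, v, hw, hv, hwv⟩ := g2 h0
    refine four _ h0 w v hw hv ?_ hrow hcol
    have h1 : ∑ i, ∑ j, (w i : ℝ) * logMatrix α i j * (v j : ℝ) =
        ∑ z, (∑ i, ∑ j, (w i : ℝ) * ((cc i j z : ℤ) : ℝ) * (v j : ℝ)) *
          Sum.elim (fun j => Real.log (x j)) (fun _ => Real.log u) z := by
      rw [hlog]
      simp only [Matrix.of_apply, Finset.mul_sum, Finset.sum_mul]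
      rw [Finset.sum_comm]
      simp only [Finset.sum_comm (s := (Finset.univ : Finset (Fin m ⊕ Fin 1)))]
      rw [Finset.sum_comm]
      refine Finset.sum_congr rfl fun i _ => ?_
      refine Finset.sum_congr rfl fun j _ => ?_
      refine Finset.sum_congr rfl fun s _ => ?_
      ring
    rw [h1]
    refine Finset.sum_eq_zero fun s _ => ?_
    have h2 := congrArg (fun r : ℚ => (r : ℝ)) (hwv s)
    push_cast at h2
    rw [h2, zero_mul]
  refine ⟨hSf.subset hsub, le_trans ?_ hSc⟩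
  exact_mod_cast Set.ncard_le_ncard hsub hSf

end Pool.Agent.Results.MP_bbc1fa_nt.PairsFromDenseSets
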