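import Pool.Agent.Q229.RAE
import Pool.Agent.TH659.AQ.StrRank
import Pool.Agent.TH659.AQ.Log

/-!
# The four exponentials conjecture for the groups generated by `q_j + x_(j,i)`, at ALL rational points `q` near almost every real point

For every `j ≤ n` let `x_(j,1), …, x_(j,k)` be distinct rational numbers. For an `n`-tuple `q` of rational numbers we consider the
positive rational numbers `α = ∏ (q_j + x_(j,i)) ^ (c_(j,i))` with integers `c_(j,i)` of absolute value at most `T ^ A`, and all the
matrices `M = (log α_ij)`, `i, j ≤ 2`, with such entries.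

The starting file `AlmostAllTuples` shows (for points with a common denominator `N`, and the group which also contains `N`) that the
tuples for which a matrix `M` with independent rows and independent columns has a determinant of absolute value at most `N ^ (-B)`
have density zero, with a power saving. Here we show that for almost every real point `y` ALL rational points `q` near `y` have this
property: all `q` with denominators at most `T` and `|y_j - q_j| ≤ T ^ (-τ)`, for all large `T`; the exceptional `y` have Hausdorff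
dimension at most `2 (n - 1) / τ`, so dimension zero for `n = 1`. For example, for `n = 1` and all `y > 0` outside a set of dimension
zero the four exponentials conjecture holds, with a lower bound for the determinant, for the group generated by `r, r + 1, …, r + k`
(exponents of absolute value at most `T ^ A`) for all good approximations `r` of `y` with denominators at most `T`.

Proof: the determinant is a polynomial with integral coefficients in the numbers `log (q_j + x_(j,i))`; if it vanishes identically, there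
are rational vectors `w, v ≠ 0` with `wᵀ M v = 0` (`TH659.AQ.zero_det`), and this is impossible for a singular matrix with independent
rows and independent columns. The counting theorem `Y120.polysC_eps` and a covering (`Q229.RA`) give the lower bound for the value.
-/

set_option autoImplicit false

open MeasureTheory Filter

namespace Pool.Agent.Results.MP_bbc1fa_nt.RationalsNearRealPoints

/-- The rational numbers `∏ (q_j + x_(j,i)) ^ c_(j,i)` with integers `c` of absolute value at most `H`. -/
def Products {n k : ℕ} (x : Fin n → Fin k → ℚ) (q : Fin n → ℚ) (H : ℝ) : Set ℚ :=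
  {r | ∃ c : Fin n → Fin k → ℤ, (∀ j i, |(c j i : ℝ)| ≤ H) ∧ r = ∏ j, ∏ i, (q j + x j i) ^ (c j i)}

/-- The matrix `(log α_ij)`. -/
noncomputable def logMatrix (α : Matrix (Fin 2) (Fin 2) ℚ) : Matrix (Fin 2) (Fin 2) ℝ :=
  Matrix.of fun i j => Real.log (α i j)

/-- a singular matrix with a rational zero has dependent rows or columns -/
theorem four (M : Matrix (Fin 2) (Fin 2) ℝ) (h0 : M.det = 0) (w v : Fin 2 → ℚ) (hw : w ≠ 0) (hv : v ≠ 0)
    (hwv : ∑ i, ∑ j, (w i : ℝ) * M i j * (v j : ℝ) = 0)
    (hrow : LinearIndependent ℚ (fun i : Fin 2 => fun j : Fin 2 => M i j))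
    (hcol : LinearIndependent ℚ (fun j : Fin 2 => fun i : Fin 2 => M i j)) : False := by
  rw [Fintype.linearIndependent_iff] at hrow hcol
  rw [Matrix.det_fin_two] at h0
  simp only [Fin.sum_univ_two] at hwv
  -- a nonzero entry of `M v`
  obtain ⟨i, hi⟩ : ∃ i, M i 0 * v 0 + M i 1 * v 1 ≠ 0 := by
    by_contra hcon
    push Not at hcon
    apply hv
    funext j
    refine hcol v ?_ j
    funext i
    simp only [Fin.sum_univ_two, Pi.add_apply, Pi.smul_apply, Rat.smul_def, Pi.zero_apply]
    linarith [hcon i]
  obtain ⟨j, hj⟩ : ∃ j, (w 0 : ℝ) * M 0 j + w 1 * M 1 j ≠ 0 := by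
    by_contra hcon
    push Not at hcon
    apply hw
    funext i
    refine hrow w ?_ i
    funext j
    simp only [Fin.sum_univ_two, Pi.add_apply, Pi.smul_apply, Rat.smul_def, Pi.zero_apply]
    exact hcon j
  apply mul_ne_zero hi hj
  fin_cases i <;> fin_cases j <;> simp only [Fin.zero_eta, Fin.mk_one, Fin.isValue]
  · linear_combination (M 0 0) * hwv - ((w 1 : ℝ) * v 1) * h0
  · linear_combination (M 0 1) * hwv + ((w 1 : ℝ) * v 0) * h0
  · linear_combination (M 1 0) * hwv + ((w 0 : ℝ) * v 1) * h0
  · linear_combination (M 1 1) * hwv - ((w 0 : ℝ) * v 0) * h0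

/-- the values of the variables -/
noncomputable def vals {n k : ℕ} (x : Fin n → Fin k → ℚ) (q : Fin n → ℚ) : Option (Fin n × Fin k) → ℝ
  | none => Real.pi
  | some (j, i) => Real.log (q j + x j i)

open TH659.AQ in
/-- **Theorem.** Let `n ≥ 1` and for every `j ≤ n` let `x_(j,1), …, x_(j,k)` be distinct rational numbers. For every `τ > 0` there is
a set `Z ⊂ ℝ^n` of Hausdorff dimension at most `2 (n - 1) / τ` (dimension `0` for `n = 1`), and of Lebesgue measure zero if
`2 (n - 1) < n τ`, such that for all `y ∉ Z` with all `y_j + x_(j,i) > 0`, all `A`, some `B` and all sufficiently large `T` the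
following holds for ALL rational points `q` with denominators at most `T` and `|y_j - q_j| ≤ T ^ (-τ)`: for all products
`α_11, α_12, α_21, α_22` of powers of the `q_j + x_(j,i)` with exponents at most `T ^ A` in absolute value, such that the matrix
`(log α_ij)` has `ℚ`-linearly independent rows and `ℚ`-linearly independent columns,
`|log α_11 log α_22 - log α_12 log α_21| > T ^ (-B)`. -/
theorem result (n k : ℕ) (hn : 1 ≤ n) (x : Fin n → Fin k → ℚ) (hx : ∀ j, Function.Injective (x j)) (τ : ℝ) (hτ : 0 < τ) :
    ∃ Z : Set (Fin n → ℝ), dimH Z ≤ ENNReal.ofReal (2 * ((n : ℝ) - 1) / τ) ∧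
      (2 * ((n : ℝ) - 1) < n * τ → volume Z = 0) ∧
      ∀ y : Fin n → ℝ, (∀ j i, 0 < y j + x j i) → y ∉ Z → ∀ A : ℝ, ∃ B : ℝ, ∀ᶠ T : ℝ in atTop,
        ∀ q : Fin n → ℚ, (∀ j, ((q j).den : ℝ) ≤ T ∧ |y j - q j| ≤ T ^ (-τ)) →
        ∀ α : Matrix (Fin 2) (Fin 2) ℚ, (∀ i j, α i j ∈ Products x q (T ^ A)) →
          LinearIndependent ℚ (fun i : Fin 2 => fun j : Fin 2 => logMatrix α i j) →
          LinearIndependent ℚ (fun j : Fin 2 => fun i : Fin 2 => logMatrix α i j) →
          T ^ (-B) < |Real.log (α 0 0) * Real.log (α 1 1) - Real.log (α 0 1) * Real.log (α 1 0)| := by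
  classical
  have hopen : ∀ j, IsOpen {t : ℝ | ∀ i, 0 < t + x j i} := by
    intro j
    have h1 : {t : ℝ | ∀ i, 0 < t + x j i} = ⋂ i, {t : ℝ | 0 < t + x j i} := by
      ext t
      simp
    rw [h1]
    exact isOpen_iInter_of_finite fun i => isOpen_lt continuous_const (continuous_id.add continuous_const)
  obtain ⟨Z, h1, h2, h3⟩ := Pool.Agent.Q229.RA.masterOR hn
    (fun j (i : Fin k) t => Real.log (t + x j i)) (fun j => {t : ℝ | ∀ i, 0 < t + x j i}) hopen
    (fun j i t ht => TH659.AQ.lf_an (fun i => (x j i : ℝ)) i (ht i))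
    (fun j a b hab hsub d => TH659.AQ.log_ind d k (fun i => (x j i : ℝ))
      (fun i i' h => hx j (Rat.cast_injective (α := ℝ) h)) a b (hsub ⟨le_rfl, hab.le⟩) hab)
    (fun q => vals x q) (fun _ => rfl) (fun _ _ _ _ => rfl) τ hτ
  refine ⟨Z, h1, h2, fun y hyD hy A => ?_⟩
  obtain ⟨B, hB⟩ := h3 y hyD hy 2 (2 * |A| + 1)
  refine ⟨B, ?_⟩
  set N1 : ℝ := 2 * ((n : ℝ) * k + 1) ^ 2 with hN1
  have htend : Tendsto (fun T : ℝ => T ^ (-τ)) atTop (nhds 0) := tendsto_rpow_neg_atTop hτ
  have hsmall : ∀ᶠ T : ℝ in atTop, ∀ j i, T ^ (-τ) < y j + x j i := by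
    simp only [eventually_all]
    intro j i
    exact htend.eventually_lt_const (hyD j i)
  filter_upwards [hB, eventually_ge_atTop 1, eventually_ge_atTop N1, hsmall] with T hT hT1 hTN hTs q hq α hα hrow hcol
  have hT0 : (0 : ℝ) < T := by linarith
  have hpos : ∀ j i, 0 < (q j : ℝ) + x j i := by
    intro j i
    have h4 := abs_le.1 (hq j).2
    linarith [hTs j i]
  choose c hc hαe using hα
  let cc : Fin 2 → Fin 2 → Option (Fin n × Fin k) → ℤ := fun r t s => match s with
    | none => 0
    | some z => c r t z.1 z.2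
  have hlog : ∀ r t, Real.log (α r t) = ∑ s, (cc r t s : ℝ) * vals x q s := by
    intro r t
    have hne : ∀ j i, ((q j : ℝ) + (x j i : ℝ)) ^ (c r t j i) ≠ 0 := fun j i => zpow_ne_zero _ (hpos j i).ne'
    rw [hαe r t]
    push_cast
    rw [Real.log_prod (fun j _ => Finset.prod_ne_zero_iff.2 fun i _ => hne j i)]
    simp only [fun j => Real.log_prod (s := Finset.univ) (fun i _ => hne j i), Real.log_zpow]
    rw [Fintype.sum_option, Fintype.sum_prod_type]
    simp only [cc, vals, Int.cast_zero, zero_mul, zero_add]
  have hM : logMatrix α = Matrix.of fun r t => ∑ s, (cc r t s : ℝ) * vals x q s := by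
    ext r t
    exact hlog r t
  have hev : MvPolynomial.aeval (vals x q) (linMat cc).det = (logMatrix α).det := by
    rw [TH659.AQ.eval_det, hM]
  have hdet : (logMatrix α).det = Real.log (α 0 0) * Real.log (α 1 1) - Real.log (α 0 1) * Real.log (α 1 0) :=
    Matrix.det_fin_two _
  have hP : (linMat cc).det ≠ 0 := by
    intro hP
    obtain ⟨w, v, hw, hv', hwv⟩ := zero_det cc hP
    refine four (logMatrix α) (by rw [← hev, hP, map_zero]) w v hw hv' ?_ hrow hcol
    rw [hM]
    simp only [Matrix.of_apply]
    have h1 : ∑ i, ∑ j, (w i : ℝ) * (∑ s, (cc i j s : ℝ) * vals x q s) * (v j : ℝ) =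
        ∑ s, (∑ i, ∑ j, (w i : ℝ) * ((cc i j s : ℤ) : ℝ) * (v j : ℝ)) * vals x q s := by
      simp only [Finset.mul_sum, Finset.sum_mul]
      rw [Finset.sum_comm]
      simp only [Finset.sum_comm (s := (Finset.univ : Finset (Option (Fin n × Fin k))))]
      rw [Finset.sum_comm]
      refine Finset.sum_congr rfl fun i _ => ?_
      refine Finset.sum_congr rfl fun j _ => ?_
      refine Finset.sum_congr rfl fun s _ => ?_
      ring
    rw [h1]
    refine Finset.sum_eq_zero fun s _ => ?_
    have h2 := congrArg (fun r : ℚ => (r : ℝ)) (hwv s)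
    push_cast at h2
    rw [h2, zero_mul]
  have hcoef : ∀ u, |(((linMat cc).det.coeff u : ℤ) : ℝ)| ≤ T ^ (2 * |A| + 1) := by
    intro u
    have hle : ∀ r t s, |(cc r t s : ℝ)| ≤ T ^ |A| := by
      intro r t s
      cases s with
      | none =>
        simp only [cc, Int.cast_zero, abs_zero]
        positivity
      | some z => exact (hc r t z.1 z.2).trans (Real.rpow_le_rpow_of_exponent_le hT1 (le_abs_self A))
    refine (coeff_det cc u _ hle).trans ?_
    have hcard : (Fintype.card (Option (Fin n × Fin k)) : ℝ) = (n : ℝ) * k + 1 := by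
      rw [Fintype.card_option, Fintype.card_prod, Fintype.card_fin, Fintype.card_fin]
      push_cast
      ring
    rw [hcard, Real.rpow_add hT0, Real.rpow_one, show (2 : ℝ) * |A| = |A| * ((2 : ℕ) : ℝ) by push_cast; ring,
      Real.rpow_mul hT0.le, Real.rpow_natCast]
    have h5 : ((Nat.factorial 2 : ℕ) : ℝ) * ((n : ℝ) * k + 1) ^ 2 * (T ^ |A|) ^ 2 = (T ^ |A|) ^ 2 * N1 := by
      rw [hN1]
      norm_num [Nat.factorial]
      ring
    rw [h5]
    exact mul_le_mul_of_nonneg_left hTN (by positivity)
  have h4 := hT q hq (linMat cc).det hP (fun z => degree_det cc z) hcoef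
  rw [hev, hdet] at h4
  exact h4

end Pool.Agent.Results.MP_bbc1fa_nt.RationalsNearRealPoints
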